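import Pool.Agent.Helper98.HY.Root

/-!
Project HY (MP_b8862a_ag), block 3: the adjoint module of type `B`, `C`, `D`: the three highest numbers.
-/

set_option linter.unusedSectionVars false
set_option linter.unusedVariables false

open Module PF

namespace TF

variable {E : Type*} [NormedAddCommGroup E] [InnerProductSpace ℝ E] {Φ X : Finset E} {m n T : ℕ} {l y : E}
  {e : Fin m → E} {c : ℝ} {d : ℕ} {ρ : ℤ → ℕ}

theorem num_adj98 {m a b x0 x1 x2 : ℕ} (hm : 1 ≤ m) (ha : a ≤ 2 * m) (hb : b ≤ 2 * m) (s1 : x1 ≤ a * b + 2 * m)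
    (s0 : a ^ 2 ≤ 2 * x0 + 2 * a) (s2 : b ^ 2 ≤ 2 * x2 + 2 * b) : x1 ^ 2 ≤ 4 * x0 * x2 + 100 * m ^ 3 := by
  have t1 : x1 ^ 2 ≤ (a * b + 2 * m) ^ 2 := Nat.pow_le_pow_left s1 2
  have m1 : m ^ 2 ≤ m ^ 3 := Nat.pow_le_pow_right hm (by norm_num)
  by_cases hab : a ≤ 1 ∨ b ≤ 1
  · have h1 : a * b ≤ 2 * m := by
      rcases hab with h | h
      · calc a * b ≤ 1 * (2 * m) := Nat.mul_le_mul h hb
          _ = 2 * m := one_mul _
      · calc a * b ≤ (2 * m) * 1 := Nat.mul_le_mul ha h
          _ = 2 * m := mul_one _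
    have h2 : (a * b + 2 * m) ^ 2 ≤ (2 * m + 2 * m) ^ 2 := Nat.pow_le_pow_left (by omega) 2
    have h3 : (2 * m + 2 * m) ^ 2 = 16 * m ^ 2 := by ring
    have h4 : 0 ≤ 4 * x0 * x2 := Nat.zero_le _
    omega
  push Not at hab
  obtain ⟨a2, b2⟩ := hab
  zify at t1 m1 ha hb s0 s2 a2 b2 hm ⊢
  have u1 : (0 : ℤ) ≤ (a : ℤ) * (a - 2) := mul_nonneg (by positivity) (by linarith)
  have u2 : (0 : ℤ) ≤ (b : ℤ) * (b - 2) := mul_nonneg (by positivity) (by linarith)
  have u3 : (a : ℤ) * (a - 2) * (b * (b - 2)) ≤ (2 * x0) * (2 * x2) :=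
    mul_le_mul (by nlinarith) (by nlinarith) u2 (by positivity)
  have v1 : (a : ℤ) * b ≤ (2 * m) * (2 * m) := mul_le_mul ha hb (by positivity) (by positivity)
  have v2 : (m : ℤ) * (a * b) ≤ m * ((2 * m) * (2 * m)) := mul_le_mul_of_nonneg_left v1 (by positivity)
  have v3 : (a : ℤ) * (a * b) ≤ (2 * m) * ((2 * m) * (2 * m)) := mul_le_mul ha v1 (by positivity) (by positivity)
  have v4 : (b : ℤ) * (a * b) ≤ (2 * m) * ((2 * m) * (2 * m)) := mul_le_mul hb v1 (by positivity) (by positivity)
  have v5 : (0 : ℤ) ≤ a * b := by positivity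
  nlinarith only [t1, m1, u3, v2, v3, v4, v5]

section

variable (F : Fr Φ m e c d)
include F

open Classical in
/-- Many signed indices with the same value give many roots. -/
theorem many98 (S : Finset (Fin m × Bool)) {v : ℝ} {k : ℤ} (hS : ∀ p ∈ S, val98 e c y p = v) (hk : v + v = (k : ℝ)) :
    S.card ^ 2 ≤ 2 * Rk98 Φ y k + 2 * S.card := by
  have h1 : ((S ×ˢ S).filter fun x => x.1.1 = x.2.1).card ≤ 2 * S.card := by
    refine Finset.card_le_mul_card_image_of_maps_to (f := Prod.fst) (t := S) (fun x hx => ?_) 2 (fun p hp => ?_)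
    · exact (Finset.mem_product.1 (Finset.mem_filter.1 hx).1).1
    · have h2 : ((S ×ˢ S).filter fun x => x.1.1 = x.2.1).filter (fun x => x.1 = p) ⊆
          {(p, (p.1, true)), (p, (p.1, false))} := by
        rintro ⟨a, b⟩ hx
        simp only [Finset.mem_filter] at hx
        obtain ⟨⟨-, h3⟩, rfl⟩ := hx
        simp only [Finset.mem_insert, Finset.mem_singleton, Prod.mk.injEq, true_and]
        rcases h4 : b.2 with _ | _
        · right
          exact Prod.ext h3.symm h4
        · left
          exact Prod.ext h3.symm h4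
      exact (Finset.card_le_card h2).trans (Finset.card_le_two)
  have h2 : ((S ×ˢ S).filter fun x => ¬ x.1.1 = x.2.1).card ≤ 2 * Rk98 Φ y k := by
    refine Finset.card_le_mul_card_image_of_maps_to (f := fun x => rr98 e c x.1 x.2)
      (t := Φ.filter fun a => (inner ℝ a y : ℝ) = (k : ℝ)) (fun x hx => ?_) 2 (fun r hr => ?_)
    · rw [Finset.mem_filter, Finset.mem_product] at hx
      rw [Finset.mem_filter]
      refine ⟨rr_mem98 F hx.2, ?_⟩
      rw [inner_rr98, hS _ hx.1.1, hS _ hx.1.2, hk]
    · by_cases hne : (((S ×ˢ S).filter fun x => ¬ x.1.1 = x.2.1).filter (fun x => rr98 e c x.1 x.2 = r)).Nonempty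
      · obtain ⟨⟨p, q⟩, hpq⟩ := hne
        simp only [Finset.mem_filter] at hpq
        have h3 : (((S ×ˢ S).filter fun x => ¬ x.1.1 = x.2.1).filter (fun x => rr98 e c x.1 x.2 = r)) ⊆
            {(p, q), (q, p)} := by
          rintro ⟨p', q'⟩ hx
          simp only [Finset.mem_filter] at hx
          have h4 := rr_inj98 F hpq.1.2 hx.1.2 (hpq.2.trans hx.2.symm)
          simp only [Finset.mem_insert, Finset.mem_singleton, Prod.mk.injEq]
          exact h4
        exact (Finset.card_le_card h3).trans (Finset.card_le_two)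
      · rw [Finset.not_nonempty_iff_eq_empty.1 hne, Finset.card_empty]
        exact Nat.zero_le _
  have h3 := Finset.card_filter_add_card_filter_not (s := S ×ˢ S) fun x => x.1.1 = x.2.1
  rw [Finset.card_product] at h3
  have h4 : S.card ^ 2 = S.card * S.card := sq _
  omega

omit F in
/-- the value of the signed index `(i, s)` and of `(i, -s)` -/
theorem val_pair98 (i : Fin m) : val98 e c y (i, true) = -val98 e c y (i, false) := by
  unfold val98 sgb98
  simp

omit F in
theorem val_inj98 {p q : Fin m × Bool} {v : ℝ} (hv : v ≠ 0) (h1 : val98 e c y p = v) (h2 : val98 e c y q = v)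
    (h : p.1 = q.1) : p = q := by
  obtain ⟨i, s⟩ := p
  obtain ⟨j, t⟩ := q
  simp only at h
  subst h
  have h3 := val_pair98 (e := e) (c := c) (y := y) i
  cases s <;> cases t
  · rfl
  · exfalso
    rw [h2, h1] at h3
    exact hv (by linarith)
  · exfalso
    rw [h1, h2] at h3
    exact hv (by linarith)
  · rfl

/-- the roots which are multiples of a vector of the frame, on a positive level -/
theorem one_sided98 {k : ℤ} (hk : 0 < k) :
    ∃ D : Finset E, D.card ≤ m ∧ ∀ p : Fin m × Bool, (inner ℝ ((d * c * sgb98 p.2 : ℝ) • e p.1) y : ℝ) = (k : ℝ) →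
      (d * c * sgb98 p.2 : ℝ) • e p.1 ∈ D := by
  classical
  let s : Fin m → ℝ := fun i => if 0 ≤ (inner ℝ (e i) y : ℝ) then 1 else -1
  refine ⟨Finset.univ.image fun i => (d * c * s i : ℝ) • e i, ?_, ?_⟩
  · refine Finset.card_image_le.trans ?_
    rw [Finset.card_univ, Fintype.card_fin]
  · rintro ⟨i, b⟩ hp
    rw [Finset.mem_image]
    refine ⟨i, Finset.mem_univ _, ?_⟩
    simp only at hp ⊢
    rw [inner_smul_left] at hp
    simp only [conj_trivial] at hp
    have hc := F.pos
    have hk' : (0 : ℝ) < k := by exact_mod_cast hk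
    have hd : (0 : ℝ) ≤ d := Nat.cast_nonneg _
    have hs : s i = sgb98 b := by
      rcases sgb_or98 b with h | h
      · rw [h] at hp ⊢
        push_cast at hp ⊢
        have h1 : 0 ≤ (inner ℝ (e i) y : ℝ) := by
          by_contra h2
          push Not at h2
          have h3 : (d * c * 1 : ℝ) * inner ℝ (e i) y ≤ 0 := mul_nonpos_of_nonneg_of_nonpos (by positivity) h2.le
          linarith
        exact if_pos h1
      · rw [h] at hp ⊢
        push_cast at hp ⊢
        have h1 : ¬ 0 ≤ (inner ℝ (e i) y : ℝ) := by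
          intro h2
          have h3 : 0 ≤ (d * c : ℝ) * inner ℝ (e i) y := mul_nonneg (by positivity) h2
          linarith
        exact if_neg h1
    rw [hs]

end

open Classical in
/-- **Block 3.** -/
theorem In.adj3 (h : In Φ X n T l y) (hv : Lv X n y ρ) (hl : l ∈ Φ) (hmax : ∀ a ∈ Φ, (inner ℝ a a : ℝ) ≤ inner ℝ l l)
    (F : Fr Φ m e c d) (hm : 9 ≤ m) (hn : n = m + Φ.card) {t : ℤ} (ht : 2 ≤ t) (htop : ∀ k, t < k → ρ k = 0) :
    ρ t ≤ 4 * m ∨ ρ (t - 1) ^ 2 ≤ 4 * ρ t * ρ (t - 2) + 100 * m ^ 3 := by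
  have hsub := root_mem98 h.rs h.sat hl h.l_mem hmax
  by_cases hbig : ρ t ≤ 4 * m
  · exact Or.inl hbig
  right
  push Not at hbig
  have hRt : 3 * m < Rk98 Φ y t := by
    have := le_rk98 hsub hv hn t
    omega
  -- the levels of the roots
  have hlev : ∀ a ∈ Φ, ∃ k : ℤ, (inner ℝ a y : ℝ) = k ∧ k ≤ t := by
    intro a ha
    obtain ⟨k, hk⟩ := h.lev a ha
    refine ⟨k, hk, ?_⟩
    by_contra h1
    push Not at h1
    have h2 := rk_le98 hsub hv k
    rw [htop k h1] at h2
    have h3 : a ∈ Φ.filter fun a => (inner ℝ a y : ℝ) = (k : ℝ) := Finset.mem_filter.2 ⟨ha, hk⟩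
    have h4 : 0 < Rk98 Φ y k := Finset.card_pos.2 ⟨a, h3⟩
    omega
  have hle : ∀ p q : Fin m × Bool, p.1 ≠ q.1 → val98 e c y p + val98 e c y q ≤ t := by
    intro p q hpq
    obtain ⟨k, hk, hkt⟩ := hlev _ (rr_mem98 F hpq)
    rw [inner_rr98] at hk
    rw [hk]
    exact_mod_cast hkt
  -- the largest value
  let i0 : Fin m := ⟨0, by omega⟩
  obtain ⟨P, -, hP⟩ := Finset.exists_max_image (Finset.univ : Finset (Fin m × Bool)) (fun p => val98 e c y p)
    ⟨(i0, true), Finset.mem_univ _⟩
  replace hP : ∀ p, val98 e c y p ≤ val98 e c y P := fun p => hP p (Finset.mem_univ _)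
  obtain ⟨M, hM⟩ : ∃ M, M = val98 e c y P := ⟨_, rfl⟩
  rw [← hM] at hP
  have htR : (2 : ℝ) ≤ t := by exact_mod_cast ht
  obtain ⟨D, hD, hD'⟩ := one_sided98 F (y := y) (k := t) (by omega)
  -- the pairs
  have hpair : ∀ B : Finset (Fin m × Bool), (∀ p q : Fin m × Bool, p.1 ≠ q.1 → val98 e c y p + val98 e c y q = t →
      ∃ r ∈ B, rr98 e c p q = rr98 e c P r) → B.card ≤ 2 * m → False := by
    intro B hB hBc
    have h1 : (Φ.filter fun a => (inner ℝ a y : ℝ) = (t : ℝ)) ⊆ D ∪ B.image (fun r => rr98 e c P r) := by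
      intro a ha
      rw [Finset.mem_filter] at ha
      rw [Finset.mem_union]
      rcases root_cases98 F ha.1 with ⟨p, q, hpq, rfl⟩ | ⟨p, rfl⟩
      · right
        rw [inner_rr98] at ha
        obtain ⟨r, hr, h2⟩ := hB p q hpq ha.2
        rw [Finset.mem_image]
        exact ⟨r, hr, h2.symm⟩
      · left
        exact hD' p ha.2
    have h2 := (Finset.card_le_card h1).trans (Finset.card_union_le _ _)
    have h3 : (B.image (fun r => rr98 e c P r)).card ≤ B.card := Finset.card_image_le
    unfold Rk98 at hRt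
    omega
  have hM0 : 0 < M := by
    by_contra h1
    push Not at h1
    apply hpair ∅ ?_ (by simp)
    intro p q hpq hpq'
    have h2 := hP p
    have h3 := hP q
    linarith
  -- a second index with the same value
  have htwo : ∃ Q : Fin m × Bool, Q.1 ≠ P.1 ∧ val98 e c y Q = M := by
    by_contra! hcon
    have hlt : ∀ q : Fin m × Bool, q ≠ P → val98 e c y q < M := by
      intro q hq
      refine lt_of_le_of_ne (hP q) fun h1 => ?_
      by_cases h2 : q.1 = P.1
      · exact hq (val_inj98 (v := M) hM0.ne' h1 hM.symm h2)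
      · exact hcon q h2 h1
    -- pairs of level `t` contain `P`
    have hcon2 : ∀ p q : Fin m × Bool, p.1 ≠ q.1 → p ≠ P → q ≠ P → val98 e c y p + val98 e c y q < t := by
      intro p q hpq hp hq
      by_cases h1 : q.1 = P.1
      · have h2 : p.1 ≠ P.1 := fun h3 => hpq (h3.trans h1.symm)
        have h3 := hle P p (Ne.symm h2)
        have h4 := hlt q hq
        linarith
      · have h3 := hle P q (Ne.symm h1)
        have h4 := hlt p hp
        linarith
    refine hpair (Finset.univ.filter fun r => r.1 ≠ P.1) ?_ ?_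
    · intro p q hpq hpq'
      by_cases hp : p = P
      · subst hp
        exact ⟨q, Finset.mem_filter.2 ⟨Finset.mem_univ _, Ne.symm hpq⟩, rfl⟩
      · by_cases hq : q = P
        · subst hq
          refine ⟨p, Finset.mem_filter.2 ⟨Finset.mem_univ _, hpq⟩, ?_⟩
          unfold rr98 rt
          rw [add_comm]
        · have := hcon2 p q hpq hp hq
          linarith
    · refine (Finset.card_le_univ _).trans ?_
      rw [Fintype.card_prod, Fintype.card_fin, Fintype.card_bool]
      omega
  obtain ⟨Q, hQP, hQM⟩ := htwo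
  have hMt : M + M = t := by
    apply le_antisymm
    · have := hle P Q (Ne.symm hQP)
      rw [hQM, ← hM] at this
      exact this
    · -- a root of level `t`
      by_contra hcon
      push Not at hcon
      apply hpair ∅ ?_ (by simp)
      intro p q hpq hpq'
      have h2 := hP p
      have h3 := hP q
      linarith
  have hM1 : 1 ≤ M := by linarith
  -- values which differ from the largest one by an integer
  have hdiff : ∀ p : Fin m × Bool, (∃ k : ℤ, M - val98 e c y p = k) ∨ val98 e c y p = -M := by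
    intro p
    by_cases h1 : p.1 = P.1
    · obtain ⟨i, s⟩ := p
      obtain ⟨j, s'⟩ := P
      simp only at h1
      subst h1
      have h3 := val_pair98 (e := e) (c := c) (y := y) i
      cases s <;> cases s'
      · left
        exact ⟨0, by rw [hM]; simp⟩
      · right
        rw [hM, h3, neg_neg]
      · right
        rw [hM, h3]
      · left
        exact ⟨0, by rw [hM]; simp⟩
    · left
      -- the opposite sign
      obtain ⟨q, hq1, hq2⟩ : ∃ q : Fin m × Bool, q.1 = p.1 ∧ val98 e c y q = -val98 e c y p := by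
        obtain ⟨i, s⟩ := p
        have h3 := val_pair98 (e := e) (c := c) (y := y) i
        cases s
        · exact ⟨(i, true), rfl, h3⟩
        · exact ⟨(i, false), rfl, by rw [h3, neg_neg]⟩
      obtain ⟨k, hk, -⟩ := hlev _ (rr_mem98 F (p := P) (q := q) (by rw [hq1]; exact Ne.symm h1))
      refine ⟨k, ?_⟩
      rw [inner_rr98, hq2, ← hM] at hk
      rw [← hk]
      ring
  obtain ⟨A, hA⟩ : ∃ A : Finset (Fin m × Bool), ∀ p, p ∈ A ↔ val98 e c y p = M :=
    ⟨Finset.univ.filter fun p => val98 e c y p = M, fun p => by simp⟩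
  obtain ⟨B, hB⟩ : ∃ B : Finset (Fin m × Bool), ∀ p, p ∈ B ↔ val98 e c y p = M - 1 :=
    ⟨Finset.univ.filter fun p => val98 e c y p = M - 1, fun p => by simp⟩
  have hAc : A.card ≤ 2 * m := by
    refine (Finset.card_le_univ _).trans ?_
    rw [Fintype.card_prod, Fintype.card_fin, Fintype.card_bool]
    omega
  have hBc : B.card ≤ 2 * m := by
    refine (Finset.card_le_univ _).trans ?_
    rw [Fintype.card_prod, Fintype.card_fin, Fintype.card_bool]
    omega
  have r0 := many98 F A (v := M) (k := t) (fun p hp => (hA p).1 hp) hMt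
  have r2 := many98 F B (v := M - 1) (k := t - 2) (fun p hp => (hB p).1 hp) (by push_cast; linarith)
  have q0 := rk_le98 hsub hv t
  have q2 := rk_le98 hsub hv (t - 2)
  have q1 := le_rk98 hsub hv hn (t - 1)
  -- the upper bound
  have r1 : Rk98 Φ y (t - 1) ≤ A.card * B.card + m := by
    obtain ⟨D1, hD1, hD1'⟩ := one_sided98 F (y := y) (k := t - 1) (by omega)
    have h1 : (Φ.filter fun a => (inner ℝ a y : ℝ) = ((t - 1 : ℤ) : ℝ)) ⊆
        D1 ∪ (A ×ˢ B).image (fun x => rr98 e c x.1 x.2) := by
      intro a ha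
      rw [Finset.mem_filter] at ha
      rw [Finset.mem_union]
      rcases root_cases98 F ha.1 with ⟨p, q, hpq, rfl⟩ | ⟨p, rfl⟩
      · right
        rw [inner_rr98] at ha
        have h2 := ha.2
        push_cast at h2
        have hp := hP p
        have hq := hP q
        have h3 : ∀ p q : Fin m × Bool, val98 e c y p + val98 e c y q = t - 1 →
            val98 e c y p = M ∨ val98 e c y p = M - 1 := by
          intro p q h2
          have hp := hP p
          have hq := hP q
          rcases hdiff p with ⟨k, hk⟩ | hk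
          · have h4 : (k : ℝ) ≤ 1 := by linarith
            have h5 : (0 : ℝ) ≤ k := by linarith
            have h6 : k ≤ 1 := by exact_mod_cast h4
            have h7 : 0 ≤ k := by exact_mod_cast h5
            have h8 : k = 0 ∨ k = 1 := by omega
            rcases h8 with h8 | h8
            · left
              rw [h8] at hk
              push_cast at hk
              linarith
            · right
              rw [h8] at hk
              push_cast at hk
              linarith
          · exfalso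
            linarith
        rw [Finset.mem_image]
        rcases h3 p q h2 with h4 | h4
        · exact ⟨(p, q), Finset.mem_product.2 ⟨(hA p).2 h4, (hB q).2 (by linarith)⟩, rfl⟩
        · refine ⟨(q, p), Finset.mem_product.2 ⟨(hA q).2 (by linarith), (hB p).2 h4⟩, ?_⟩
          unfold rr98 rt
          simp only
          rw [add_comm]
      · left
        exact hD1' p ha.2
    have h2 := (Finset.card_le_card h1).trans (Finset.card_union_le _ _)
    have h3 : ((A ×ˢ B).image (fun x => rr98 e c x.1 x.2)).card ≤ A.card * B.card := by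
      refine Finset.card_image_le.trans ?_
      rw [Finset.card_product]
    unfold Rk98
    omega
  -- numbers
  obtain ⟨a, ha⟩ : ∃ a, a = A.card := ⟨_, rfl⟩
  obtain ⟨b, hb⟩ : ∃ b, b = B.card := ⟨_, rfl⟩
  rw [← ha] at hAc r0 r1
  rw [← hb] at hBc r2 r1
  have s1 : ρ (t - 1) ≤ a * b + 2 * m := by omega
  have s0 : a ^ 2 ≤ 2 * ρ t + 2 * a := by omega
  have s2 : b ^ 2 ≤ 2 * ρ (t - 2) + 2 * b := by omega
  exact num_adj98 (by omega) hAc hBc s1 s0 s2

end TF
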