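import Pool.Agent.Helper2.HY.Defs
import Pool.Agent.Helper27.TF.Sum

/-!
Project HY (MP_b8862a_ag), block 3: the roots are weights; the numbers of the weights of a level.
-/

set_option linter.unusedSectionVars false
set_option linter.unusedVariables false

open Module PF

namespace TF

variable {E : Type*} [NormedAddCommGroup E] [InnerProductSpace ℝ E] {Φ X : Finset E} {m n : ℕ} {l y : E}
  {e : Fin m → E} {c : ℝ} {d : ℕ} {ρ : ℤ → ℕ}

theorem near98 (h : RS Φ) (hX : Sat Φ X) {b a : E} (hb : b ∈ Φ) (hbX : b ∈ X) (ha : a ∈ Φ)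
    (hle : (inner ℝ a a : ℝ) ≤ inner ℝ b b) (hne : (inner ℝ a b : ℝ) ≠ 0) : a ∈ X := by
  have key : ∀ a ∈ Φ, (inner ℝ a a : ℝ) ≤ inner ℝ b b → (0 : ℝ) < inner ℝ a b → a ∈ X := by
    intro a ha hle hpos
    by_cases hab : b = a
    · rw [← hab]
      exact hbX
    have h1 : b + -a ∈ Φ := h.add_mem hb (h.neg_mem ha) (by rw [inner_neg_right, real_inner_comm]; linarith)
      (by rw [neg_neg]; exact hab)
    have h2 : (0 : ℝ) < inner ℝ (b + -a) (b + -a) := h.inner_pos h1
    have h3 : (0 : ℝ) < inner ℝ b (b + -a) := by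
      rw [inner_add_right, inner_neg_right]
      rw [inner_add_left, inner_add_right, inner_add_right, inner_neg_left, inner_neg_right, inner_neg_left,
        inner_neg_right] at h2
      rw [real_inner_comm a b] at *
      linarith
    have h4 : 0 < co (b + -a) b := by
      unfold co
      positivity
    obtain ⟨k, hk⟩ := hX.int _ h1 _ hbX
    have h5 := hX.str _ h1 _ hbX 1 (by
      rw [hk] at h4 ⊢
      have : 0 < k := by exact_mod_cast h4
      exact_mod_cast (by omega : (1 : ℤ) ≤ k))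
    rw [Nat.cast_one, one_smul] at h5
    have h6 : b - (b + -a) = a := by abel
    rwa [h6] at h5
  rcases lt_or_gt_of_ne hne with h1 | h1
  · have h2 := key (-a) (h.neg_mem ha) (by rw [inner_neg_neg]; exact hle) (by rw [inner_neg_left]; linarith)
    have h3 := hX.neg _ h2
    rwa [neg_neg] at h3
  · exact key a ha hle h1

/-- If a longest root is a weight, all roots are weights. -/
theorem root_mem98 (h : RS Φ) (hX : Sat Φ X) (hl : l ∈ Φ) (hlX : l ∈ X)
    (hmax : ∀ a ∈ Φ, (inner ℝ a a : ℝ) ≤ inner ℝ l l) : ∀ a ∈ Φ, a ∈ X := by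
  classical
  obtain ⟨S, hS⟩ : ∃ S : Finset E, ∀ a, a ∈ S ↔ a ∈ Φ ∧ ∃ b ∈ Φ, b ∈ X ∧ (inner ℝ b b : ℝ) = inner ℝ l l ∧
      (inner ℝ a b : ℝ) ≠ 0 :=
    ⟨Φ.filter fun a => ∃ b ∈ Φ, b ∈ X ∧ (inner ℝ b b : ℝ) = inner ℝ l l ∧ (inner ℝ a b : ℝ) ≠ 0, fun a => by simp⟩
  have h1 : S = Φ := by
    refine h.irr S (fun a ha => ((hS a).1 ha).1) ⟨l, (hS l).2 ⟨hl, l, hl, hlX, rfl, (h.inner_pos hl).ne'⟩⟩ ?_
    intro a ha f hf hfS
    by_contra haf
    obtain ⟨haΦ, b, hb, hbX, hbl, hab⟩ := (hS a).1 ha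
    apply hfS
    by_cases hfb : (inner ℝ f b : ℝ) = 0
    · refine (hS f).2 ⟨hf, b - co a b • a, h.refl a haΦ b hb, Sat.refl27 hX haΦ (h.neg_mem haΦ) hbX, ?_, ?_⟩
      · rw [h.inner_refl haΦ, hbl]
      · rw [inner_sub_right, inner_smul_right, hfb, zero_sub]
        have h2 : co a b ≠ 0 := by
          intro h3
          apply hab
          unfold co at h3
          have h4 := (h.inner_pos haΦ).ne'
          rw [div_eq_zero_iff] at h3
          rcases h3 with h3 | h3
          · rw [real_inner_comm]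
            linarith
          · exact absurd h3 h4
        rw [real_inner_comm] at haf
        simp [h2, haf]
    · exact (hS f).2 ⟨hf, b, hb, hbX, hbl, hfb⟩
  intro a ha
  have h2 := ha
  rw [← h1] at h2
  obtain ⟨-, b, hb, hbX, hbl, hab⟩ := (hS a).1 h2
  exact near98 h hX hb hbX ha (by rw [hbl]; exact hmax a ha) hab

open Classical in
/-- the number of the roots of a level -/
noncomputable def Rk98 (Φ : Finset E) (y : E) (k : ℤ) : ℕ := (Φ.filter fun a => (inner ℝ a y : ℝ) = (k : ℝ)).card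

theorem rk_le98 (hsub : ∀ a ∈ Φ, a ∈ X) (hv : Lv X n y ρ) (k : ℤ) : Rk98 Φ y k ≤ ρ k := by
  classical
  obtain ⟨-, μ, h1, -, h3⟩ := hv
  have h4 := h3 k
  unfold Rk98
  rw [Finset.card_eq_sum_ones]
  refine le_trans ?_ h4.le
  refine le_trans (Finset.sum_le_sum (g := μ) ?_) (Finset.sum_le_sum_of_subset ?_)
  · intro a ha
    exact h1 a (hsub a (Finset.mem_filter.1 ha).1)
  · intro a ha
    rw [Finset.mem_filter] at ha
    rw [Finset.mem_filter]
    exact ⟨hsub a ha.1, ha.2⟩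

theorem le_rk98 (hsub : ∀ a ∈ Φ, a ∈ X) (hv : Lv X n y ρ) (hn : n = m + Φ.card) (k : ℤ) : ρ k ≤ Rk98 Φ y k + m := by
  classical
  obtain ⟨-, μ, h1, h2, h3⟩ := hv
  have h4 := h3 k
  -- the sum of `μ` over the complement of the roots of level `k`
  have h5 : ∑ x ∈ X with ¬ (inner ℝ x y : ℝ) = (k : ℝ), μ x + ∑ x ∈ X with (inner ℝ x y : ℝ) = (k : ℝ), μ x = n := by
    rw [← h2, add_comm]
    exact Finset.sum_filter_add_sum_filter_not X (fun x => (inner ℝ x y : ℝ) = (k : ℝ)) μ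
  have h6 : (Φ.filter fun a => ¬ (inner ℝ a y : ℝ) = (k : ℝ)).card ≤ ∑ x ∈ X with ¬ (inner ℝ x y : ℝ) = (k : ℝ), μ x := by
    rw [Finset.card_eq_sum_ones]
    refine le_trans (Finset.sum_le_sum (g := μ) ?_) (Finset.sum_le_sum_of_subset ?_)
    · intro a ha
      exact h1 a (hsub a (Finset.mem_filter.1 ha).1)
    · intro a ha
      rw [Finset.mem_filter] at ha
      rw [Finset.mem_filter]
      exact ⟨hsub a ha.1, ha.2⟩
  have h7 := Finset.card_filter_add_card_filter_not (s := Φ) fun a => (inner ℝ a y : ℝ) = (k : ℝ)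
  unfold Rk98
  have h8 : ∑ x ∈ X with (inner ℝ x y : ℝ) = (k : ℝ), μ x = ρ k := by
    convert h4
  omega

/-- signs -/
def sgb98 (b : Bool) : ℤ := if b then 1 else -1

theorem sgb_or98 (b : Bool) : sgb98 b = 1 ∨ sgb98 b = -1 := by
  cases b
  · exact Or.inr rfl
  · exact Or.inl rfl

/-- the value of a signed index -/
noncomputable def val98 (e : Fin m → E) (c : ℝ) (y : E) (p : Fin m × Bool) : ℝ := sgb98 p.2 * (c * inner ℝ y (e p.1))

/-- the root with two signed indices -/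
noncomputable def rr98 (e : Fin m → E) (c : ℝ) (p q : Fin m × Bool) : E := rt e c (sgb98 p.2) (sgb98 q.2) p.1 q.1

variable (F : Fr Φ m e c d)
include F

theorem rr_mem98 {p q : Fin m × Bool} (h : p.1 ≠ q.1) : rr98 e c p q ∈ Φ := F.rt_mem h (sgb_or98 _) (sgb_or98 _)

omit F in
theorem inner_rr98 (p q : Fin m × Bool) : (inner ℝ (rr98 e c p q) y : ℝ) = val98 e c y p + val98 e c y q := by
  rw [real_inner_comm]
  unfold rr98 val98
  rw [inner_rt]
  ring

theorem root_cases98 {a : E} (ha : a ∈ Φ) : (∃ p q : Fin m × Bool, p.1 ≠ q.1 ∧ a = rr98 e c p q) ∨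
    ∃ p : Fin m × Bool, a = (d * c * sgb98 p.2 : ℝ) • e p.1 := by
  rcases (F.mem a).1 ha with ⟨i, j, hij, h | h | h⟩ | ⟨hd, i, h | h⟩
  · left
    refine ⟨(i, true), (j, true), hij, ?_⟩
    rw [h]
    simp [rr98, rt, sgb98]
  · left
    refine ⟨(i, true), (j, false), hij, ?_⟩
    rw [h]
    simp [rr98, rt, sgb98, sub_eq_add_neg]
  · left
    refine ⟨(i, false), (j, false), hij, ?_⟩
    rw [h]
    simp only [rr98, rt, sgb98]
    simp only [Bool.false_eq_true, if_false, Int.cast_neg, Int.cast_one, neg_smul, one_smul]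
    rw [← smul_neg, neg_add]
  · right
    exact ⟨(i, true), by rw [h]; simp [sgb98]⟩
  · right
    exact ⟨(i, false), by rw [h]; simp [sgb98]⟩

theorem rr_inj98 {p q p' q' : Fin m × Bool} (h : p.1 ≠ q.1) (h' : p'.1 ≠ q'.1) (he : rr98 e c p q = rr98 e c p' q') :
    (p' = p ∧ q' = q) ∨ (p' = q ∧ q' = p) := by
  have h1 : ∀ k, (sgb98 p.2 : ℝ) * (if p.1 = k then 1 else 0) + sgb98 q.2 * (if q.1 = k then 1 else 0) =
      sgb98 p'.2 * (if p'.1 = k then 1 else 0) + sgb98 q'.2 * (if q'.1 = k then 1 else 0) := by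
    intro k
    have h2 := congrArg (fun x => cx e c x k) he
    simp only [rr98, F.cx_rt] at h2
    exact h2
  have s0 : ∀ b : Bool, (sgb98 b : ℝ) ≠ 0 := by
    intro b
    rcases sgb_or98 b with h | h <;> rw [h] <;> norm_num
  have s1 : ∀ b b' : Bool, (sgb98 b : ℝ) = sgb98 b' → b = b' := by
    intro b b' hb
    cases b <;> cases b' <;> simp [sgb98] at hb ⊢ <;> norm_num at hb
  have hp := h1 p.1
  have hq := h1 q.1
  rw [if_pos rfl, if_neg (Ne.symm h), mul_one, mul_zero, add_zero] at hp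
  rw [if_neg h, if_pos rfl, mul_one, mul_zero, zero_add] at hq
  by_cases e1 : p'.1 = p.1
  · have e2 : q'.1 ≠ p.1 := fun e => h' (e1.trans e.symm)
    rw [if_pos e1, if_neg e2, mul_one, mul_zero, add_zero] at hp
    have e3 : p'.1 ≠ q.1 := fun e => h (e1.symm.trans e)
    rw [if_neg e3, mul_zero, zero_add] at hq
    by_cases e4 : q'.1 = q.1
    · rw [if_pos e4, mul_one] at hq
      left
      exact ⟨Prod.ext e1 (s1 _ _ hp).symm, Prod.ext e4 (s1 _ _ hq).symm⟩
    · rw [if_neg e4, mul_zero] at hq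
      exact absurd hq (s0 _)
  · rw [if_neg e1, mul_zero, zero_add] at hp
    by_cases e2 : q'.1 = p.1
    · rw [if_pos e2, mul_one] at hp
      have e3 : q'.1 ≠ q.1 := fun e => h (e2.symm.trans e)
      rw [if_neg e3, mul_zero, add_zero] at hq
      by_cases e4 : p'.1 = q.1
      · rw [if_pos e4, mul_one] at hq
        right
        exact ⟨Prod.ext e4 (s1 _ _ hq).symm, Prod.ext e2 (s1 _ _ hp).symm⟩
      · rw [if_neg e4, mul_zero] at hq
        exact absurd hq (s0 _)
    · rw [if_neg e2, mul_zero] at hp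
      exact absurd hp (s0 _)

end TF
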