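import Pool.Agent.Helper21.HY.Ind
import Pool.Agent.Helper55.PG.ThreeK

/-!
Project HY (MP_b8862a_ag), block 7b: three Hodge numbers `s, h, s` with `h ≠ 2 s` are indecomposable; surfaces of degree `d ≥ 5`.
-/

set_option linter.unusedVariables false

open Finset

namespace MH.HY

/-- Weight two: three Hodge numbers `s, h, s` with `h ≠ 2 s` are not the Hodge numbers of a tensor product. -/
theorem indec_three98 {r : ℤ → ℕ} (hr : ∀ p, p ≠ 0 → p ≠ 1 → p ≠ 2 → r p = 0) (h1 : r 1 ≠ 2 * r 2) : NI.Indec 2 r := by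
  have h := MH.indec_three55 (m := 1) (k := 1) one_pos (r := r) (s := r 2) (h := r 1) rfl rfl (fun p p1 p2 p3 => by
    refine hr p (fun h => p3 (by rw [h]; ring)) p2 (fun h => p1 (by rw [h]; ring))) h1
  exact h

/-- The form of the stub. -/
theorem indec_three {r : ℤ → ℕ} (hr : ∀ p, p ≠ 0 → p ≠ 1 → p ≠ 2 → r p = 0) (h02 : r 0 = r 2) (h0 : 0 < r 2)
    (h1 : r 1 ≠ 2 * r 2) : NI.Indec 2 r :=
  indec_three98 hr h1

/-- the three numbers of a surface -/
theorem prm_two {e : ℕ} (he : 2 ≤ e) : prm 2 (e + 1) = e * (e ^ 2 - e + 1) := by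
  have h1 := prm_eq (N := 2) (d := e + 1) ⟨1, rfl⟩ (by omega)
  rw [Nat.add_sub_cancel] at h1
  have h2 : e ≤ e ^ 2 := by nlinarith
  obtain ⟨k, hk⟩ := Nat.exists_eq_add_of_le h2
  have h3 : e ^ 2 - e + 1 = k + 1 := by omega
  rw [h3]
  have h4 : e ^ (2 + 1) + 1 = (k + 1) * (e + 1) := by
    have h5 : e ^ 2 = e + k := hk
    rw [pow_succ, h5]
    nlinarith
  rw [h4, ← mul_assoc] at h1
  exact Nat.eq_of_mul_eq_mul_right (Nat.succ_pos e) h1

theorem hyp_top (N e : ℕ) : hyp N (e + 1) N = e.choose (N + 1) := by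
  rw [← hyp_zero, ← hyp_symm N (e + 1) 0, sub_zero]

theorem prm_two_eq (d : ℕ) : prm 2 d = 2 * hyp 2 d 2 + hyp 2 d 1 := by
  have h1 : Finset.Icc (0 : ℤ) (2 : ℕ) = {0, 1, 2} := by decide
  unfold prm
  rw [h1, Finset.sum_insert (by decide), Finset.sum_insert (by decide), Finset.sum_singleton]
  have h2 := hyp_symm 2 d 0
  rw [show ((2 : ℕ) : ℤ) - 0 = 2 by norm_num] at h2
  rw [← h2]
  ring

theorem six_choose_three (e : ℕ) : 6 * e.choose 3 = e * (e - 1) * (e - 2) := by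
  have h := Nat.descFactorial_eq_factorial_mul_choose e 3
  rw [show Nat.factorial 3 = 6 by rfl] at h
  rw [← h, Nat.descFactorial_succ, Nat.descFactorial_succ, Nat.descFactorial_succ, Nat.descFactorial_zero]
  simp only [Nat.sub_zero, mul_one]
  ring

/-- surfaces: `h ≠ 2 s` -/
theorem indec_two {d : ℕ} (hd : 5 ≤ d) : NI.Indec (2 : ℤ) (hyp 2 d) := by
  refine indec_three98 (fun p p0 p1 p2 => ?_) fun h => ?_
  · by_contra h0
    have := hyp_supp h0
    push_cast at this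
    omega
  · obtain ⟨e, rfl⟩ : ∃ e, d = e + 1 := ⟨d - 1, by omega⟩
    have h1 := prm_two_eq (e + 1)
    rw [h, prm_two (by omega)] at h1
    have h2 := hyp_top 2 e
    have h3 := six_choose_three e
    have h4 : hyp 2 (e + 1) 2 = e.choose 3 := h2
    rw [h4] at h1
    obtain ⟨f, rfl⟩ : ∃ f, e = f + 2 := ⟨e - 2, by omega⟩
    have e1 : f + 2 - 1 = f + 1 := by omega
    have e2 : f + 2 - 2 = f := by omega
    have e3 : (f + 2) ^ 2 - (f + 2) + 1 = f ^ 2 + 3 * f + 3 := by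
      have : (f + 2) ^ 2 = (f ^ 2 + 3 * f + 2) + (f + 2) := by ring
      omega
    rw [e1, e2] at h3
    rw [e3] at h1
    have h5 : 3 * ((f + 2) * (f ^ 2 + 3 * f + 3)) = 2 * ((f + 2) * (f + 1) * f) := by
      rw [← h3, h1]
      ring
    nlinarith

end MH.HY
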